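import Pool.Agent.Y72.Ty.Main

set_option autoImplicit false

namespace Pool.Agent.Results.MP_cff99f_al.FinitenessLengths

open H540DG Pool.Agent.H599R3.RH Pool.Agent.H599R3.SV Pool.Agent.Y72.Ea Pool.Agent.Y72.Ty

/-- Let `G` be (isomorphic to) a diagram group `D(P, w)`.

(1) If `G` is of type `FP_n` and `ℤ ^ (n + 1)` does not embed in `G`, then the trivial module `ℤ`
has a resolution of length `n` by finitely generated projective `ℤ[G]`-modules; so `G` is of type
`FP`, in particular of type `FP_m` for all `m`.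

(2) If `G` is of type `FP_n` and not of type `FP_m` for some `m`, then `ℤ ^ (n + 1)` embeds in `G`,
and `w` is equal modulo `P` to a product of at least `n + 1` words with nontrivial diagram groups.

(3) If `G` is finitely presented, the following are equivalent: `G` has finite cohomological
dimension; `G` contains no copy of Thompson's group `F`; `w` is not equal modulo `P` to a word
`B e C` with a nonempty factor `e` such that `e = e e` modulo `P`. In this case there is `n` such
that type `FP_m` implies type `FP` for all `m ≥ n`.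

(4) If `G` is finitely presented and elementary amenable then `G` is free abelian of finite
rank. -/
theorem result {A : Type} (P : Pres A) (w : List A) {G : Type} [Group G]
    (e : G ≃* DiagramGroup P w) :
    (∀ n : ℕ, TypeFP G n →
      (¬ ∃ f : Multiplicative (Fin (n + 1) → ℤ) →* G, Function.Injective f) →
        FinRes G n ∧ ∀ m : ℕ, TypeFP G m) ∧
    (∀ n m : ℕ, TypeFP G n → ¬ TypeFP G m →
      (∃ f : Multiplicative (Fin (n + 1) → ℤ) →* G, Function.Injective f) ∧
      ∃ ps : List (List A), n < ps.length ∧ (∀ p ∈ ps, Nontrivial (DiagramGroup P p)) ∧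
        ∃ L : List (OE P), IsPath w L ps.flatten) ∧
    (Group.IsFinitelyPresented G →
      List.TFAE [
        ∃ n : ℕ, ∀ k : ℕ, n < k → ∀ M : Rep.{0} ℤ G, Subsingleton (groupCohomology M k),
        ¬ ∃ x : ℕ → G, FSeq x,
        ¬ HasIdem P w] ∧
      ((¬ ∃ x : ℕ → G, FSeq x) → ∃ n : ℕ, ∀ m : ℕ, n ≤ m → TypeFP G m → FinRes G n)) ∧
    (Group.IsFinitelyPresented G → EA (⊤ : Subgroup G) →
      ∃ k : ℕ, Nonempty (G ≃* Multiplicative (Fin k → ℤ))) := by
  have e' : G ≃* Dg P w := e.trans (dgEquiv P w)
  have h1 : ∀ n : ℕ, TypeFP G n →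
      (¬ ∃ f : Multiplicative (Fin (n + 1) → ℤ) →* G, Function.Injective f) →
        FinRes G n ∧ ∀ m : ℕ, TypeFP G m := by
    intro n hF hn
    have h := finRes_G e' (adLE_of_not hn) hF
    exact ⟨h, FR.fp n _ h⟩
  refine ⟨h1, ?_, ?_, ?_⟩
  · intro n m hF hm
    refine ⟨?_, ?_⟩
    · by_contra hn
      exact hm ((h1 n hF hn).2 m)
    · by_contra hn
      exact hm (FR.fp n _ (finRes_dec e' hn hF) m)
  · intro hfp
    refine ⟨?_, ?_⟩
    · tfae_have 1 → 2 := by
        rintro ⟨n, hn⟩ ⟨x, hx⟩
        obtain ⟨H, hH, a, ha, b, hb, hab⟩ := hx.solvable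
        exact hab (ea_G e' (adLE_of_vanish hn) (EA.of_solvable hH) a ha b hb)
      tfae_have 2 → 3 := fun hs h => hs (hasIdem_fseq e' h)
      tfae_have 3 → 1 := by
        intro h
        obtain ⟨n, hn⟩ := fp_idem e' hfp h
        exact ⟨n, fun k hk M => vanish_G e' hn k hk M⟩
      tfae_finish
    · intro hs
      obtain ⟨n, hn⟩ := fp_G e' hfp hs
      exact ⟨n, fun m hm hF => finRes_G e' hn (FP.mono hm _ hF)⟩
  · intro hfp hea
    obtain ⟨n, hn⟩ := fp_G e' hfp (fun ⟨x, hx⟩ =>
      hea.no_fseq ⟨x, hx, fun j => Subgroup.mem_top _⟩)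
    have hfg : Group.FG G := by
      obtain ⟨k, φ, hφ, -⟩ := hfp.out
      exact Group.fg_of_surjective hφ
    refine free_ab (fun x y => ea_G e' hn hea x (Subgroup.mem_top _) y (Subgroup.mem_top _)) ?_
    intro g m hm hg
    apply e'.injective
    rw [map_one]
    apply Subtype.ext
    have h2 : (e' g) ^ m = 1 := by rw [← map_pow, hg, map_one]
    exact torsion_free (e' g).2 hm (congrArg Subtype.val h2)

end Pool.Agent.Results.MP_cff99f_al.FinitenessLengths
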